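import Mathlib

/-!
# Bochner's theorem for continuous functions of positive type on the line
-/

set_option autoImplicit false
set_option linter.unusedSectionVars false
open MeasureTheory Filter Topology ProbabilityTheory
open scoped NNReal ENNReal RealInnerProductSpace

namespace Pool.Agent.Helper19.Spe

noncomputable section

/-- limits of characteristic functions -/
theorem limit {M : ℕ → Measure ℝ} [∀ n, IsProbabilityMeasure (M n)] {φ : ℝ → ℂ}
    (hc : ContinuousAt φ 0) (h : ∀ t, Tendsto (fun n => charFun (M n) t) atTop (𝓝 (φ t))) :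
    ∃ m : Measure ℝ, IsProbabilityMeasure m ∧ ∀ t, charFun m t = φ t := by
  have ht : IsTightMeasureSet (Set.range M) := isTightMeasureSet_of_tendsto_charFun hc h
  set μ : ℕ → ProbabilityMeasure ℝ := fun n => ⟨M n, inferInstance⟩ with hμ
  have h_compact : IsCompact (closure {μ n | n}) := by
    refine isCompact_closure_of_isTightMeasureSet ?_
    refine ht.subset ?_
    rintro _ ⟨_, ⟨n, rfl⟩, rfl⟩
    exact ⟨n, rfl⟩
  obtain ⟨μ', -, hμ'⟩ := h_compact.ultrafilter_le_nhds ((hyperfilter ℕ).map μ)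
    (by
      refine le_trans ?_ (monotone_principal subset_closure)
      rw [le_principal_iff, Ultrafilter.coe_map, mem_map]
      refine Filter.univ_mem' fun n => ⟨n, rfl⟩)
  refine ⟨μ', inferInstance, fun t => ?_⟩
  have h1 : Tendsto μ (hyperfilter ℕ) (𝓝 μ') := hμ'
  rw [ProbabilityMeasure.tendsto_iff_forall_integral_rclike_tendsto ℂ] at h1
  have h2 := h1 (BoundedContinuousFunction.innerProbChar t)
  have h3 : Tendsto (fun n => charFun (M n) t) (hyperfilter ℕ) (𝓝 (φ t)) :=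
    (h t).mono_left Nat.hyperfilter_le_atTop
  have h4 : Tendsto (fun n => charFun (M n) t) (hyperfilter ℕ) (𝓝 (charFun (μ' : Measure ℝ) t)) := by
    simp_rw [charFun_eq_integral_innerProbChar]
    exact h2
  exact tendsto_nhds_unique h4 h3

/-- the Gaussian regularisation -/
theorem approx {φ : ℝ → ℂ} (hc : Continuous φ) (h1 : ∀ t, ‖φ t‖ ≤ 1) (t : ℝ) :
    Tendsto (fun n : ℕ => ∫ x : ℝ, (Real.exp (-(x ^ 2) / 2) : ℂ) * φ (t + x / √((n : ℝ) + 1)) *
      Real.exp (-((t + x / √((n : ℝ) + 1)) ^ 2) / (2 * ((n : ℝ) + 1)))) atTop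
      (𝓝 (∫ x : ℝ, (Real.exp (-(x ^ 2) / 2) : ℂ) * φ t * 1)) := by
  refine tendsto_integral_of_dominated_convergence (fun x => Real.exp (-(x ^ 2) / 2)) ?_ ?_ ?_ ?_
  · intro n
    refine Continuous.aestronglyMeasurable ?_
    have : Continuous fun x : ℝ => φ (t + x / √((n : ℝ) + 1)) := hc.comp (by fun_prop)
    fun_prop
  · have := integrable_exp_neg_mul_sq (b := 1 / 2) (by norm_num)
    refine this.congr (Eventually.of_forall fun x => ?_)
    simp only
    congr 1
    ring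
  · intro n
    refine Eventually.of_forall fun x => ?_
    rw [norm_mul, norm_mul, Complex.norm_real, Complex.norm_real, Real.norm_eq_abs,
      Real.norm_eq_abs, Real.abs_exp, Real.abs_exp]
    have h3 : Real.exp (-((t + x / √((n : ℝ) + 1)) ^ 2) / (2 * ((n : ℝ) + 1))) ≤ 1 := by
      rw [Real.exp_le_one_iff]
      apply div_nonpos_of_nonpos_of_nonneg
      · have := sq_nonneg (t + x / √((n : ℝ) + 1))
        linarith
      · positivity
    have h4 : Real.exp (-(x ^ 2) / 2) * ‖φ (t + x / √((n : ℝ) + 1))‖ ≤ Real.exp (-(x ^ 2) / 2) :=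
      mul_le_of_le_one_right (Real.exp_pos _).le (h1 _)
    calc _ ≤ Real.exp (-(x ^ 2) / 2) * ‖φ (t + x / √((n : ℝ) + 1))‖ * 1 := by
          gcongr
      _ ≤ _ := by rw [mul_one]; exact h4
  · refine Eventually.of_forall fun x => ?_
    have hs : Tendsto (fun n : ℕ => (n : ℝ) + 1) atTop atTop :=
      tendsto_atTop_add_const_right _ _ tendsto_natCast_atTop_atTop
    have hs2 : Tendsto (fun n : ℕ => t + x / √((n : ℝ) + 1)) atTop (𝓝 t) := by
      have := (Real.tendsto_sqrt_atTop.comp hs)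
      have h5 := (tendsto_const_nhds (x := x)).div_atTop this
      simpa using h5.const_add t
    have hA : Tendsto (fun n : ℕ => φ (t + x / √((n : ℝ) + 1))) atTop (𝓝 (φ t)) :=
      (hc.tendsto t).comp hs2
    have hB : Tendsto (fun n : ℕ => Real.exp (-((t + x / √((n : ℝ) + 1)) ^ 2) /
        (2 * ((n : ℝ) + 1)))) atTop (𝓝 1) := by
      have h0 : Tendsto Real.exp (𝓝 0) (𝓝 1) := by
        have := Real.continuous_exp.tendsto 0
        rwa [Real.exp_zero] at this
      refine h0.comp ?_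
      refine Tendsto.div_atTop (a := -(t ^ 2)) ?_ ?_
      · exact (hs2.pow 2).neg
      · exact hs.const_mul_atTop (by norm_num)
    have hC := (Complex.continuous_ofReal.tendsto 1).comp hB
    simp only [Complex.ofReal_one] at hC
    exact (hA.const_mul _).mul hC

theorem subst {F : ℝ → ℂ} (t : ℝ) {a : ℝ} (ha : 0 < a) :
    ∫ u : ℝ, F u = (a⁻¹ : ℝ) • ∫ x : ℝ, F (t + x / a) := by
  have h1 : ∫ x : ℝ, F (t + x / a) = |a| • ∫ y : ℝ, F (t + y) :=
    Measure.integral_comp_div (fun y => F (t + y)) a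
  rw [h1, abs_of_pos ha, smul_smul, inv_mul_cancel₀ ha.ne', one_smul]
  exact (integral_add_left_eq_self (μ := volume) F t).symm

/-- positivity in the Gaussian form -/
def GP (φ : ℝ → ℂ) (n : ℝ≥0) (ρ : ℝ → ℝ) : Prop :=
  ∀ w : ℝ, 0 ≤ ρ w ∧ ∫ u, Complex.exp (-(w * u) * Complex.I) * φ u ∂(gaussianReal 0 n) = ρ w

theorem GP.cont {φ : ℝ → ℂ} {n : ℝ≥0} {ρ : ℝ → ℝ} (h : GP φ n ρ) (hc : Continuous φ)
    (h1 : ∀ t, ‖φ t‖ ≤ 1) : Continuous ρ := by
  have h2 : Continuous fun w : ℝ =>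
      ∫ u, Complex.exp (-(w * u) * Complex.I) * φ u ∂(gaussianReal 0 n) := by
    refine continuous_of_dominated (bound := fun _ => 1) ?_ ?_ (integrable_const _) ?_
    · intro w
      exact (Continuous.mul (by fun_prop) hc).aestronglyMeasurable
    · intro w
      refine Eventually.of_forall fun u => ?_
      rw [norm_mul]
      have h3 : ‖Complex.exp (-(w * u) * Complex.I)‖ = 1 := by
        have := Complex.norm_exp_ofReal_mul_I (-(w * u))
        rwa [Complex.ofReal_neg, Complex.ofReal_mul] at this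
      rw [h3, one_mul]
      exact h1 u
    · exact Eventually.of_forall fun u => by fun_prop
  have h3 : (fun w : ℝ => ∫ u, Complex.exp (-(w * u) * Complex.I) * φ u ∂(gaussianReal 0 n)) =
      fun w => (ρ w : ℂ) := funext fun w => (h w).2
  rw [h3] at h2
  exact Complex.continuous_re.comp h2

theorem GP.le {φ : ℝ → ℂ} {n : ℝ≥0} {ρ : ℝ → ℝ} (h : GP φ n ρ) (h1 : ∀ t, ‖φ t‖ ≤ 1) (w : ℝ) :
    ρ w ≤ 1 := by
  have h2 : ‖(ρ w : ℂ)‖ ≤ 1 := by
    rw [← (h w).2]
    refine (norm_integral_le_of_norm_le_const (C := 1) (Eventually.of_forall fun u => ?_)).trans ?_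
    · rw [norm_mul]
      have h3 : ‖Complex.exp (-(w * u) * Complex.I)‖ = 1 := by
        have := Complex.norm_exp_ofReal_mul_I (-(w * u))
        rwa [Complex.ofReal_neg, Complex.ofReal_mul] at this
      rw [h3, one_mul]
      exact h1 u
    · simp
  rw [Complex.norm_real, Real.norm_eq_abs] at h2
  exact (le_abs_self _).trans h2

/-- the regularised measures -/
def Mn (n : ℝ≥0) (ρ : ℝ → ℝ) : Measure ℝ :=
  (gaussianReal 0 n).withDensity fun w => ENNReal.ofReal (ρ w)

theorem Mn_integral {φ : ℝ → ℂ} {n : ℝ≥0} {ρ : ℝ → ℝ} (h : GP φ n ρ) (hc : Continuous φ)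
    (h1 : ∀ t, ‖φ t‖ ≤ 1) (F : ℝ → ℂ) :
    ∫ w, F w ∂(Mn n ρ) = ∫ w, (ρ w : ℂ) * F w ∂(gaussianReal 0 n) := by
  unfold Mn
  rw [integral_withDensity_eq_integral_toReal_smul]
  · refine integral_congr_ae (Eventually.of_forall fun w => ?_)
    simp only
    rw [ENNReal.toReal_ofReal (h w).1]
    rfl
  · exact (h.cont hc h1).measurable.ennreal_ofReal
  · exact Eventually.of_forall fun w => ENNReal.ofReal_lt_top

theorem Mn_fin {φ : ℝ → ℂ} {n : ℝ≥0} {ρ : ℝ → ℝ} (h : GP φ n ρ)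
    (h1 : ∀ t, ‖φ t‖ ≤ 1) : IsFiniteMeasure (Mn n ρ) := by
  refine ⟨?_⟩
  unfold Mn
  rw [withDensity_apply _ MeasurableSet.univ, Measure.restrict_univ]
  calc ∫⁻ w, ENNReal.ofReal (ρ w) ∂(gaussianReal 0 n) ≤ ∫⁻ _, 1 ∂(gaussianReal 0 n) := by
        refine lintegral_mono fun w => ?_
        rw [← ENNReal.ofReal_one]
        exact ENNReal.ofReal_le_ofReal (h.le h1 w)
    _ < ⊤ := by simp

theorem Mn_charFun {φ : ℝ → ℂ} {n : ℝ≥0} {ρ : ℝ → ℝ} (h : GP φ n ρ) (hc : Continuous φ)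
    (h1 : ∀ t, ‖φ t‖ ≤ 1) (t : ℝ) :
    charFun (Mn n ρ) t = ∫ u, φ u * Complex.exp (-(n * (t - u) ^ 2 / 2 : ℂ)) ∂(gaussianReal 0 n) := by
  rw [charFun_apply_real, Mn_integral h hc h1]
  have h2 : ∀ w : ℝ, (ρ w : ℂ) * Complex.exp (t * w * Complex.I) =
      ∫ u, Complex.exp ((t - u : ℝ) * w * Complex.I) * φ u ∂(gaussianReal 0 n) := by
    intro w
    rw [← (h w).2, mul_comm, ← integral_const_mul]
    refine integral_congr_ae (Eventually.of_forall fun u => ?_)
    simp only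
    rw [← mul_assoc, ← Complex.exp_add]
    congr 2
    push_cast
    ring
  simp_rw [h2]
  rw [integral_integral_swap]
  · refine integral_congr_ae (Eventually.of_forall fun u => ?_)
    simp only
    rw [integral_mul_const, ← charFun_apply_real, charFun_gaussianReal, mul_comm]
    congr 2
    push_cast
    ring
  · refine (integrable_const (1 : ℝ)).mono' ?_ (Eventually.of_forall fun p => ?_)
    · refine Continuous.aestronglyMeasurable ?_
      have : Continuous fun p : ℝ × ℝ => φ p.2 := hc.comp continuous_snd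
      simp only [Function.uncurry_def]
      fun_prop
    · simp only [Function.uncurry]
      rw [norm_mul, ← Complex.ofReal_mul, Complex.norm_exp_ofReal_mul_I, one_mul]
      exact h1 _

/-- the regularised values -/
def Nn (φ : ℝ → ℂ) (k : ℕ) (t : ℝ) : ℂ :=
  ∫ x : ℝ, (Real.exp (-(x ^ 2) / 2) : ℂ) * φ (t + x / √((k : ℝ) + 1)) *
      Real.exp (-((t + x / √((k : ℝ) + 1)) ^ 2) / (2 * ((k : ℝ) + 1)))

/-- the constants -/
def cn (k : ℕ) : ℝ := (√((k : ℝ) + 1))⁻¹ * (√(2 * Real.pi * ((k : ℝ) + 1)))⁻¹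

theorem cn_pos (k : ℕ) : 0 < cn k := by
  unfold cn; positivity

theorem charFun_Mn {φ : ℝ → ℂ} {k : ℕ} {ρ : ℝ → ℝ} (h : GP φ ((k : ℝ≥0) + 1) ρ)
    (hc : Continuous φ) (h1 : ∀ t, ‖φ t‖ ≤ 1) (t : ℝ) :
    charFun (Mn ((k : ℝ≥0) + 1) ρ) t = (cn k : ℂ) * Nn φ k t := by
  have hn : ((k : ℝ≥0) + 1) ≠ 0 := by positivity
  have hk : (0 : ℝ) < (k : ℝ) + 1 := by positivity
  have hs : 0 < √((k : ℝ) + 1) := Real.sqrt_pos.2 hk
  have hq : √((k : ℝ) + 1) ^ 2 = (k : ℝ) + 1 := Real.sq_sqrt hk.le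
  rw [Mn_charFun h hc h1, integral_gaussianReal_eq_integral_smul hn, subst t hs]
  unfold Nn cn
  rw [← integral_const_mul, ← integral_smul]
  refine integral_congr_ae (Eventually.of_forall fun x => ?_)
  simp only [gaussianPDFReal, Complex.real_smul, sub_zero]
  push_cast
  have e1 : ((k : ℂ) + 1) * ((t : ℂ) - (t + x / (√((k : ℝ) + 1) : ℝ))) ^ 2 / 2 = (x : ℂ) ^ 2 / 2 := by
    have hq' : ((√((k : ℝ) + 1) : ℝ) : ℂ) ^ 2 = (k : ℂ) + 1 := by
      rw [← Complex.ofReal_pow, hq]; push_cast; rfl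
    have hs' : ((√((k : ℝ) + 1) : ℝ) : ℂ) ≠ 0 := by
      exact_mod_cast hs.ne'
    rw [← hq']
    field_simp
    ring
  rw [e1]
  have e2 : (-(x : ℂ) ^ 2 / 2) = -((x : ℂ) ^ 2 / 2) := by ring
  rw [e2]
  ring

/-- **Bochner's theorem** -/
theorem bochner {φ : ℝ → ℂ} (hc : Continuous φ) (h1 : ∀ t, ‖φ t‖ ≤ 1) (h0 : φ 0 = 1)
    (hp : ∀ n : ℝ≥0, ∃ ρ : ℝ → ℝ, GP φ n ρ) :
    ∃ m : Measure ℝ, IsProbabilityMeasure m ∧ ∀ t, charFun m t = φ t := by
  choose ρ hρ using hp
  set M : ℕ → Measure ℝ := fun k => Mn ((k : ℝ≥0) + 1) (ρ ((k : ℝ≥0) + 1)) with hM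
  have hfin : ∀ k, IsFiniteMeasure (M k) := fun k => Mn_fin (hρ _) h1
  have hch : ∀ k t, charFun (M k) t = (cn k : ℂ) * Nn φ k t := fun k t =>
    charFun_Mn (hρ _) hc h1 t
  have hlim : ∀ t, Tendsto (fun k => Nn φ k t) atTop
      (𝓝 ((∫ x : ℝ, (Real.exp (-(x ^ 2) / 2) : ℂ)) * φ t)) := by
    intro t
    have := approx hc h1 t
    simp only [mul_one] at this
    rw [integral_mul_const] at this
    exact this
  set g : ℂ := ∫ x : ℝ, (Real.exp (-(x ^ 2) / 2) : ℂ) with hg
  have hg0 : g ≠ 0 := by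
    have e1 : g = ((∫ x : ℝ, Real.exp (-(1 / 2) * x ^ 2) : ℝ) : ℂ) := by
      rw [hg, ← integral_complex_ofReal]
      refine integral_congr_ae (Eventually.of_forall fun x => ?_)
      simp only
      congr 2
      ring
    rw [e1, integral_gaussian]
    have : (0 : ℝ) < √(Real.pi / (1 / 2)) := by positivity
    exact_mod_cast this.ne'
  have hmass : ∀ k, ((M k).real Set.univ : ℂ) = (cn k : ℂ) * Nn φ k 0 := by
    intro k
    rw [← hch]
    simp
  have hev : ∀ᶠ k in atTop, Nn φ k 0 ≠ 0 := by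
    refine (hlim 0).eventually_ne ?_
    rw [h0, mul_one]
    exact hg0
  obtain ⟨k0, hk0⟩ := eventually_atTop.1 hev
  have hne : ∀ k, (M (k + k0)) Set.univ ≠ 0 := by
    intro k h
    have h2 := hmass (k + k0)
    rw [measureReal_def, h] at h2
    simp only [ENNReal.toReal_zero, Complex.ofReal_zero] at h2
    rcases mul_eq_zero.1 h2.symm with h3 | h3
    · exact (cn_pos (k + k0)).ne' (by exact_mod_cast h3)
    · exact hk0 _ (by omega) h3
  set P : ℕ → Measure ℝ := fun k => ((M (k + k0)) Set.univ)⁻¹ • M (k + k0) with hP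
  have hPp : ∀ k, IsProbabilityMeasure (P k) := by
    intro k
    refine ⟨?_⟩
    simp only [hP, Measure.smul_apply, smul_eq_mul]
    exact ENNReal.inv_mul_cancel (hne k) (measure_ne_top _ _)
  refine limit (M := P) hc.continuousAt fun t => ?_
  have hval : ∀ k, charFun (P k) t = Nn φ (k + k0) t / Nn φ (k + k0) 0 := by
    intro k
    simp only [hP]
    rw [charFun_apply_real, integral_smul_measure, ← charFun_apply_real, hch, ENNReal.toReal_inv]
    have h2 := hmass (k + k0)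
    rw [measureReal_def] at h2
    rw [Complex.real_smul]
    push_cast
    rw [h2]
    have h3 : (cn (k + k0) : ℂ) ≠ 0 := by exact_mod_cast (cn_pos (k + k0)).ne'
    have h4 : Nn φ (k + k0) 0 ≠ 0 := hk0 _ (by omega)
    field_simp
  simp_rw [hval]
  have h5 := ((hlim t).div (hlim 0) (by rw [h0, mul_one]; exact hg0)).comp (tendsto_add_atTop_nat k0)
  have h6 : g * φ t / (g * φ 0) = φ t := by
    rw [h0, mul_one, mul_div_cancel_left₀ _ hg0]
  rw [h6] at h5
  exact h5

end

end Pool.Agent.Helper19.Spe
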