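import Pool.Agent.Helper19.SpeB
import Pool.Agent.Helper28.Tg.Defs6
import Pool.Agent.Helper28.Tg.Lap
import Pool.Graph.R_seed8.H5R2.NB.EX
import Pool.Graph.R_seed8.H5R2.NB.EXA

/-!
# Existence of the spectral measures, for arbitrary (also unbounded) potentials
-/

set_option autoImplicit false
set_option linter.unusedSectionVars false

open MeasureTheory Filter Topology ProbabilityTheory
open scoped BigOperators ENNReal NNReal InnerProductSpace ComplexConjugate

namespace Pool.Agent.Helper19.Spe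

open Pool.Agent.H4R2.LO (Zd dd bx Hg L2f IsSpec PolyB IsGen)
open Pool.Agent.H5R2.NB (UG L2 dl IsGrp PP)
open Pool.Agent.Helper28.Tg (lap t_LAP St_SPE)

noncomputable section

section abstract

variable {X : Type} [NormedAddCommGroup X] [InnerProductSpace ℂ X] [CompleteSpace X]

theorem inner_UU (W : UG X) (v : X) (s t : ℝ) : ⟪W.U s v, W.U t v⟫_ℂ = ⟪v, W.U (t - s) v⟫_ℂ := by
  have h : W.U t v = W.U s (W.U (t - s) v) := by
    rw [← W.add']
    congr 2
    ring
  rw [h]
  let L : X →ₗᵢ[ℂ] X := ⟨(W.U s : X →ₗ[ℂ] X), fun x => W.norm' s x⟩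
  exact L.inner_map_map v (W.U (t - s) v)

/-- positivity -/
theorem gp (W : UG X) (v : X) (n : ℝ≥0) : ∃ ρ : ℝ → ℝ, GP (fun t => ⟪v, W.U t v⟫_ℂ) n ρ := by
  have key : ∀ w : ℝ, ∃ r : ℝ, 0 ≤ r ∧
      ∫ u, Complex.exp (-(w * u) * Complex.I) * ⟪v, W.U u v⟫_ℂ ∂(gaussianReal 0 n) = r := by
    intro w
    set γ := gaussianReal 0 (n / 2) with hγ
    have hcv : gaussianReal 0 n = γ ∗ γ := by
      rw [hγ, gaussianReal_conv_gaussianReal, add_zero, add_halves]
    set e : ℝ → X := fun x => Complex.exp (-(w * x) * Complex.I) • W.U x v with he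
    have hec : Continuous e := by
      refine Continuous.smul (by fun_prop) (W.cont' v)
    have hn1 : ∀ x : ℝ, ‖Complex.exp (-(w * x) * Complex.I)‖ = 1 := by
      intro x
      have := Complex.norm_exp_ofReal_mul_I (-(w * x))
      rwa [Complex.ofReal_neg, Complex.ofReal_mul] at this
    have hei : Integrable e γ := by
      refine (integrable_const ‖v‖).mono' hec.aestronglyMeasurable (Eventually.of_forall fun x => ?_)
      rw [he]
      simp only
      rw [norm_smul, hn1, one_mul, W.norm']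
    have hcc : Continuous fun u : ℝ => Complex.exp (-(w * u) * Complex.I) * ⟪v, W.U u v⟫_ℂ :=
      Continuous.mul (by fun_prop) (continuous_const.inner (W.cont' v))
    refine ⟨‖∫ x, e x ∂γ‖ ^ 2, by positivity, ?_⟩
    have h1 : ((‖∫ x, e x ∂γ‖ ^ 2 : ℝ) : ℂ) = ⟪∫ x, e x ∂γ, ∫ y, e y ∂γ⟫_ℂ := by
      rw [inner_self_eq_norm_sq_to_K]
      push_cast
      rfl
    have hneg : γ.map (fun x => -x) = γ := by
      rw [hγ, gaussianReal_map_neg, neg_zero]
    have hbd : ∀ u : ℝ, ‖Complex.exp (-(w * u) * Complex.I) * ⟪v, W.U u v⟫_ℂ‖ ≤ ‖v‖ * ‖v‖ := by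
      intro u
      rw [norm_mul, hn1, one_mul]
      refine (norm_inner_le_norm _ _).trans ?_
      rw [W.norm']
    rw [h1, hcv, integral_conv]
    · have h2 : ⟪∫ x, e x ∂γ, ∫ y, e y ∂γ⟫_ℂ = ∫ x, ∫ y, ⟪e x, e y⟫_ℂ ∂γ ∂γ := by
        have h3 : ⟪∫ x, e x ∂γ, ∫ y, e y ∂γ⟫_ℂ = ∫ x, ⟪e x, ∫ y, e y ∂γ⟫_ℂ ∂γ := by
          rw [← inner_conj_symm, ← integral_inner hei, ← integral_conj]
          refine integral_congr_ae (Eventually.of_forall fun x => ?_)
          simp only
          rw [inner_conj_symm]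
        rw [h3]
        refine integral_congr_ae (Eventually.of_forall fun x => ?_)
        simp only
        rw [integral_inner hei]
      rw [h2]
      have h4 : ∀ x y : ℝ, ⟪e x, e y⟫_ℂ = Complex.exp (-(w * (-x + y : ℝ)) * Complex.I) *
          ⟪v, W.U (-x + y) v⟫_ℂ := by
        intro x y
        rw [he]
        simp only
        rw [inner_smul_left, inner_smul_right, inner_UU, ← Complex.exp_conj, ← mul_assoc,
          ← Complex.exp_add]
        congr 2
        · simp only [map_mul, map_neg, Complex.conj_ofReal, Complex.conj_I]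
          push_cast
          ring
        · congr 2
          ring
      simp_rw [h4]
      have hme : MeasurableEmbedding (fun x : ℝ => -x) :=
        (MeasurableEquiv.neg ℝ).measurableEmbedding
      conv_lhs => rw [← hneg]
      rw [hme.integral_map]
      rw [hneg]
    · refine (integrable_const (‖v‖ * ‖v‖)).mono' hcc.aestronglyMeasurable
        (Eventually.of_forall hbd)
  choose ρ hρ using key
  exact ⟨ρ, hρ⟩

theorem phi_le (W : UG X) (v : X) (hv : ‖v‖ = 1) (t : ℝ) : ‖⟪v, W.U t v⟫_ℂ‖ ≤ 1 := by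
  refine (norm_inner_le_norm _ _).trans ?_
  rw [W.norm', hv, one_mul]

/-- the spectral measure of a unit vector, as a Fourier transform -/
theorem exists_meas (W : UG X) (v : X) (hv : ‖v‖ = 1) : ∃ m : Measure ℝ, IsProbabilityMeasure m ∧
    ∀ t : ℝ, ⟪v, W.U t v⟫_ℂ = ∫ E : ℝ, Complex.exp (-(Complex.I * t * E)) ∂m := by
  obtain ⟨m, hm, hch⟩ := bochner (φ := fun t => ⟪v, W.U t v⟫_ℂ)
    (continuous_const.inner (W.cont' v)) (phi_le W v hv)
    (by simp only [W.zero', inner_self_eq_norm_sq_to_K, hv]; simp) (gp W v)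
  have hme : MeasurableEmbedding (fun x : ℝ => -x) := (MeasurableEquiv.neg ℝ).measurableEmbedding
  refine ⟨m.map (fun x => -x), Measure.isProbabilityMeasure_map (by fun_prop), fun t => ?_⟩
  rw [hme.integral_map, ← hch t, charFun_apply_real]
  refine integral_congr_ae (Eventually.of_forall fun x => ?_)
  simp only
  congr 1
  push_cast
  ring

theorem fubini (m : Measure ℝ) [IsProbabilityMeasure m] (z : ℂ) (hz : 0 < z.im) :
    Complex.I * ∫ t in Set.Ioi (0 : ℝ), Complex.exp (Complex.I * z * t) *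
      ∫ E : ℝ, Complex.exp (-(Complex.I * t * E)) ∂m = ∫ E : ℝ, ((E : ℂ) - z)⁻¹ ∂m := by
  have h1 : ∀ t : ℝ, Complex.exp (Complex.I * z * t) *
      ∫ E : ℝ, Complex.exp (-(Complex.I * t * E)) ∂m =
      ∫ E : ℝ, Complex.exp (Complex.I * (z - E) * t) ∂m := by
    intro t
    rw [← integral_const_mul]
    refine integral_congr_ae (Eventually.of_forall fun E => ?_)
    simp only
    rw [← Complex.exp_add]
    congr 1
    ring
  simp_rw [h1]
  have hnorm : ∀ t E : ℝ, ‖Complex.exp (Complex.I * (z - E) * t)‖ = Real.exp (-(z.im * t)) := by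
    intro t E
    rw [Complex.norm_exp]
    congr 1
    simp
  rw [integral_integral_swap, ← integral_const_mul]
  · refine integral_congr_ae (Eventually.of_forall fun E => ?_)
    simp only
    have hre : (Complex.I * (z - E)).re < 0 := by
      simp
      exact hz
    rw [integral_exp_mul_complex_Ioi hre 0]
    have hne : (z - E : ℂ) ≠ 0 := by
      intro h
      have := congrArg Complex.im h
      simp at this
      exact hz.ne' this
    have hne' : ((E : ℂ) - z) ≠ 0 := by
      intro h
      apply hne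
      rw [← neg_sub, h, neg_zero]
    simp only [Complex.ofReal_zero, mul_zero, Complex.exp_zero]
    field_simp
    ring
  · have h2 : Integrable (fun p : ℝ × ℝ => Real.exp (-(z.im * p.1)) * (1 : ℝ))
        ((volume.restrict (Set.Ioi 0)).prod m) :=
      Integrable.mul_prod (f := fun t : ℝ => Real.exp (-(z.im * t))) (g := fun _ : ℝ => (1 : ℝ))
        (Pool.Agent.Helper28.Tg.Lap.exp_int hz) (integrable_const _)
    refine h2.mono' ?_ (Eventually.of_forall fun p => ?_)
    · refine Continuous.aestronglyMeasurable ?_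
      simp only [Function.uncurry_def]
      fun_prop
    · simp only [Function.uncurry]
      rw [hnorm, mul_one]

end abstract

theorem tsum_single {d : ℕ} (x : Zd d) (u : Zd d → ℂ) :
    ∑' y, (starRingEnd ℂ) ((Pi.single x (1 : ℂ) : Zd d → ℂ) y) * u y = u x := by
  rw [tsum_eq_single x]
  · simp
  · intro y hy
    rw [Pi.single_eq_of_ne hy]
    simp

theorem Hg_conj {d : ℕ} (c : ℝ) (V : Zd d → ℝ) (u : Zd d → ℂ) (y : Zd d) :
    Hg c V (fun x => (starRingEnd ℂ) (u x)) y = (starRingEnd ℂ) (Hg c V u y) := by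
  unfold Hg
  simp only [map_add, map_mul, map_sum, Complex.conj_ofReal]

/-- the spectral measures exist, for every real potential -/
theorem exists_spec (d : ℕ) (c : ℝ) (V : Zd d → ℝ) (x : Zd d) :
    ∃ m : Measure ℝ, IsProbabilityMeasure m ∧ IsSpec c V (Pi.single x 1) m := by
  obtain ⟨W, hW⟩ := Pool.Agent.H5R2.NB.t_EX Pool.Agent.H5R2.NB.t_EXA Pool.Agent.H5R2.NB.t_OPS d c V
  obtain ⟨m, hm, hch⟩ := exists_meas W (dl x) (Pool.Agent.Helper28.Tg.Lap.dl_norm x)
  have hup : ∀ z : ℂ, 0 < z.im → ∫ E : ℝ, ((E : ℂ) - z)⁻¹ ∂m = lap W z x x := by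
    intro z hz
    rw [← fubini m z hz]
    unfold lap
    congr 1
    refine integral_congr_ae (Eventually.of_forall fun t => ?_)
    simp only
    rw [← hch t, Pool.Agent.H5R2.NB.CV.inner_dl]
  refine ⟨m, hm, inferInstance, fun z hz => ?_⟩
  rcases lt_or_gt_of_ne hz with h | h
  · have hz' : 0 < ((starRingEnd ℂ) z).im := by
      rw [Complex.conj_im]; linarith
    obtain ⟨h1, h2⟩ := t_LAP d c V W hW _ hz' x
    refine ⟨fun y => (starRingEnd ℂ) (lap W ((starRingEnd ℂ) z) x y), ?_, ?_, ?_⟩
    · unfold L2f at h1 ⊢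
      refine h1.congr fun y => ?_
      rw [RCLike.norm_conj]
    · intro y
      rw [Hg_conj]
      have h3 := congrArg (starRingEnd ℂ) (h2 y)
      rw [map_sub, map_mul, Complex.conj_conj] at h3
      rw [h3]
      by_cases hy : y = x
      · subst hy; simp
      · simp [hy]
    · rw [tsum_single, ← hup _ hz', ← integral_conj]
      refine integral_congr_ae (Eventually.of_forall fun E => ?_)
      simp only [map_inv₀, map_sub, Complex.conj_ofReal, Complex.conj_conj]
  · obtain ⟨h1, h2⟩ := t_LAP d c V W hW _ h x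
    refine ⟨lap W z x, h1, ?_, ?_⟩
    · intro y
      rw [h2 y]
      by_cases hy : y = x
      · subst hy; simp
      · simp [hy]
    · rw [tsum_single, hup _ h]

theorem t_SPE : St_SPE := fun d V x => exists_spec d (-1) V x

end

end Pool.Agent.Helper19.Spe
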